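import Pool.Agent.Helper15.PC.Twist

/-!
MP_0d40a0_lc: counting.
-/

set_option autoImplicit false

namespace Pool.Agent.Helper15.PC

open MvPolynomial
open scoped LinearAlgebra.Projectivization

variable {K : Type*} [Field K]

theorem eval_smul_hom {d : ℕ} {f : MvPolynomial (Fin 3) K} (hf : f.IsHomogeneous d) (c : K)
    (v : Fin 3 → K) : eval (c • v) f = c ^ d * eval v f := by
  rw [eval_eq', eval_eq', Finset.mul_sum]
  refine Finset.sum_congr rfl ?_
  intro m hm
  have hw : m.degree = d := by
    by_contra hne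
    exact (mem_support_iff.mp hm) (hf.coeff_eq_zero hne)
  have h1 : ∏ i, (c • v) i ^ m i = c ^ d * ∏ i, v i ^ m i := by
    simp only [Pi.smul_apply, smul_eq_mul, mul_pow]
    rw [Finset.prod_mul_distrib, Finset.prod_pow_eq_pow_sum]
    congr 2
    rw [← hw, Finsupp.degree_eq_sum]
  rw [h1]
  ring

/-- the cone over a plane curve has `q - 1` nonzero vectors over every point -/
theorem card_cone [Finite K] {d : ℕ} {f : MvPolynomial (Fin 3) K} (hf : f.IsHomogeneous d) :
    Nat.card {v : Fin 3 → K // v ≠ 0 ∧ eval v f = 0} = (Nat.card K - 1) * N1 f := by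
  have h1 : Nat.card Kˣ = Nat.card K - 1 := by
    have := Fintype.ofFinite K
    classical
    rw [Nat.card_eq_fintype_card, Fintype.card_units, Nat.card_eq_fintype_card]
  have h0 : ∀ P : ℙ K (Fin 3 → K), ∀ u : Kˣ, (u : K) • P.rep ≠ 0 := fun P u =>
    smul_ne_zero u.ne_zero P.rep_nonzero
  let e : {P : ℙ K (Fin 3 → K) // eval P.rep f = 0} × Kˣ →
      {v : Fin 3 → K // v ≠ 0 ∧ eval v f = 0} := fun w =>
    ⟨(w.2 : K) • w.1.1.rep, h0 _ _, by rw [eval_smul_hom hf, w.1.2, mul_zero]⟩
  have he : Function.Bijective e := by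
    constructor
    · rintro ⟨⟨P, hP⟩, u⟩ ⟨⟨P', hP'⟩, u'⟩ h
      have h2 : (u : K) • P.rep = (u' : K) • P'.rep := congrArg Subtype.val h
      have h3 : P = P' := by
        rw [← P.mk_rep, ← P'.mk_rep, Projectivization.mk_eq_mk_iff']
        refine ⟨(u : K)⁻¹ * u', ?_⟩
        rw [mul_smul, ← h2, smul_smul, inv_mul_cancel₀ u.ne_zero, one_smul]
      subst h3
      have h4 : (u : K) = u' := smul_left_injective K P.rep_nonzero h2
      have h5 : u = u' := Units.ext h4
      subst h5
      rfl
    · rintro ⟨v, hv, hv0⟩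
      obtain ⟨c, hc⟩ := Projectivization.exists_smul_eq_mk_rep K v hv
      refine ⟨⟨⟨Projectivization.mk K v hv, ?_⟩, c⁻¹⟩, ?_⟩
      · rw [← hc, Units.smul_def, eval_smul_hom hf, hv0, mul_zero]
      · apply Subtype.ext
        show ((c⁻¹ : Kˣ) : K) • (Projectivization.mk K v hv).rep = v
        rw [← hc, Units.smul_def, smul_smul, Units.inv_mul, one_smul]
  rw [← Nat.card_congr (Equiv.ofBijective e he), Nat.card_prod, h1, mul_comm]
  rfl

/-- `U` is a set of representatives of the units modulo `a`-th powers -/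
def Reps (a : ℕ) (U : Finset Kˣ) : Prop := ∀ y : Kˣ, ∃! u, u ∈ U ∧ ∃ x : Kˣ, y = u * x ^ a

theorem reps_card [Finite K] (a : ℕ) (U : Finset Kˣ) (hU : Reps a U) :
    U.card = (Nat.card K - 1).gcd a ∧ U.card = Nat.card (powMonoidHom a : Kˣ →* Kˣ).ker := by
  have := Fintype.ofFinite K
  classical
  have h1 : Nat.card Kˣ = Nat.card K - 1 := by
    rw [Nat.card_eq_fintype_card, Fintype.card_units, Nat.card_eq_fintype_card]
  have hker : Nat.card (powMonoidHom a : Kˣ →* Kˣ).ker = (Nat.card Kˣ).gcd a :=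
    IsCyclic.card_powMonoidHom_ker Kˣ a
  have hcard : U.card = Nat.card (powMonoidHom a : Kˣ →* Kˣ).ker := by
    let e : U × (powMonoidHom a : Kˣ →* Kˣ).range → Kˣ := fun w => (w.1 : Kˣ) * w.2
    have he : Function.Bijective e := by
      constructor
      · rintro ⟨⟨u, hu⟩, ⟨x, hx⟩⟩ ⟨⟨u', hu'⟩, ⟨x', hx'⟩⟩ h
        have h2 : u * x = u' * x' := h
        obtain ⟨z, rfl⟩ := hx
        obtain ⟨z', rfl⟩ := hx'
        rw [powMonoidHom_apply, powMonoidHom_apply] at h2
        have h3 : u = u' := (hU (u * z ^ a)).unique ⟨hu, z, rfl⟩ ⟨hu', z', h2⟩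
        subst h3
        have h4 := mul_left_cancel h2
        refine Prod.ext rfl (Subtype.ext ?_)
        exact h4
      · intro y
        obtain ⟨u, ⟨hu, x, hx⟩, -⟩ := hU y
        exact ⟨⟨⟨u, hu⟩, ⟨x ^ a, x, rfl⟩⟩, hx.symm⟩
    have h2 := Nat.card_congr (Equiv.ofBijective e he)
    rw [Nat.card_prod, Nat.card_eq_fintype_card (α := U), Fintype.card_coe] at h2
    have h3 : Nat.card (powMonoidHom a : Kˣ →* Kˣ).ker *
        Nat.card (powMonoidHom a : Kˣ →* Kˣ).range = Nat.card Kˣ := by
      rw [← Subgroup.card_mul_index (powMonoidHom a : Kˣ →* Kˣ).ker, Subgroup.index_ker]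
    have h4 : 0 < Nat.card (powMonoidHom a : Kˣ →* Kˣ).range := Nat.card_pos
    exact Nat.eq_of_mul_eq_mul_right h4 (h2.trans h3.symm)
  refine ⟨?_, hcard⟩
  rw [hcard, hker, h1]

/-- every element of `K` is `u x ^ a` for `#U` pairs `(u, x)` -/
theorem fiber_card [Fintype K] [DecidableEq K] (a : ℕ) (ha : 0 < a) (U : Finset Kˣ)
    (hU : Reps a U) (y : K) :
    ((U ×ˢ (Finset.univ : Finset K)).filter (fun w => (w.1 : K) * w.2 ^ a = y)).card = U.card := by
  classical
  by_cases hy : y = 0
  · subst hy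
    have h1 : (U ×ˢ (Finset.univ : Finset K)).filter (fun w => (w.1 : K) * w.2 ^ a = 0) =
        U ×ˢ {0} := by
      ext ⟨u, x⟩
      simp only [Finset.mem_filter, Finset.mem_product, Finset.mem_univ, and_true,
        Finset.mem_singleton, mul_eq_zero, Units.ne_zero, false_or, pow_eq_zero_iff ha.ne']
    rw [h1, Finset.card_product, Finset.card_singleton, mul_one]
  · obtain ⟨u, ⟨hu, x, hx⟩, huniq⟩ := hU (Units.mk0 y hy)
    have hx' : y = (u : K) * (x : K) ^ a := by
      have := congrArg Units.val hx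
      simpa using this
    have himg : (U ×ˢ (Finset.univ : Finset K)).filter (fun w => (w.1 : K) * w.2 ^ a = y) =
        (Finset.univ : Finset ↥((powMonoidHom a : Kˣ →* Kˣ).ker)).image
          (fun z : ↥((powMonoidHom a : Kˣ →* Kˣ).ker) => (u, ((x * (z : Kˣ) : Kˣ) : K))) := by
      ext ⟨u', x'⟩
      simp only [Finset.mem_filter, Finset.mem_product, Finset.mem_univ, and_true,
        Finset.mem_image, true_and, Prod.mk.injEq]
      constructor
      · rintro ⟨hu', h⟩
        have hx0 : x' ≠ 0 := by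
          rintro rfl
          rw [zero_pow ha.ne', mul_zero] at h
          exact hy h.symm
        have h1 : Units.mk0 y hy = u' * (Units.mk0 x' hx0) ^ a := by
          apply Units.ext
          rw [Units.val_mk0, Units.val_mul, Units.val_pow_eq_pow_val, Units.val_mk0]
          exact h.symm
        have h2 : u' = u := huniq u' ⟨hu', _, h1⟩
        subst h2
        have h3 : x ^ a = (Units.mk0 x' hx0) ^ a := mul_left_cancel (hx.symm.trans h1)
        refine ⟨⟨x⁻¹ * Units.mk0 x' hx0, ?_⟩, rfl, ?_⟩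
        · rw [MonoidHom.mem_ker, powMonoidHom_apply, mul_pow, ← h3, inv_pow, inv_mul_cancel]
        · rw [mul_inv_cancel_left, Units.val_mk0]
      · rintro ⟨⟨z, hz⟩, rfl, rfl⟩
        rw [MonoidHom.mem_ker, powMonoidHom_apply] at hz
        refine ⟨hu, ?_⟩
        rw [← Units.val_pow_eq_pow_val, mul_pow, hz, mul_one, hx', Units.val_pow_eq_pow_val]
    rw [(reps_card a U hU).2, himg, Finset.card_image_of_injective, Finset.card_univ,
      Nat.card_eq_fintype_card]
    rintro ⟨z, hz⟩ ⟨z', hz'⟩ h
    have h1 : ((x * z : Kˣ) : K) = ((x * z' : Kˣ) : K) := (Prod.mk.inj h).2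
    have h2 := mul_left_cancel (Units.ext h1)
    exact Subtype.ext h2

open Classical in
/-- the pairs (twist, vector) over the vectors with a property -/
theorem sum_twists [Fintype K] (a : Fin 3 → ℕ) (ha : ∀ i, 0 < a i) (U : Fin 3 → Finset Kˣ)
    (hU : ∀ i, Reps (a i) (U i)) (Z : (Fin 3 → K) → Prop) :
    ∑ t ∈ Fintype.piFinset U,
        ((Finset.univ : Finset (Fin 3 → K)).filter fun v => Z fun i => (t i : K) * v i ^ a i).card =
      (∏ i, (U i).card) * ((Finset.univ : Finset (Fin 3 → K)).filter Z).card := by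
  set W : Finset (Fin 3 → Kˣ × K) :=
    Fintype.piFinset (fun i => U i ×ˢ (Finset.univ : Finset K)) with hW
  set ψ : (Fin 3 → Kˣ × K) → Fin 3 → K := fun w i => ((w i).1 : K) * (w i).2 ^ a i with hψ
  set S : Finset (Fin 3 → Kˣ × K) := W.filter fun w => Z (ψ w) with hS
  have h1 : S.card = ∑ t ∈ Fintype.piFinset U,
      ((Finset.univ : Finset (Fin 3 → K)).filter fun v => Z fun i => (t i : K) * v i ^ a i).card := by
    rw [Finset.card_eq_sum_card_fiberwise (f := fun w i => (w i).1) (t := Fintype.piFinset U)]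
    · refine Finset.sum_congr rfl ?_
      intro t ht
      refine Finset.card_bij (fun w _ i => (w i).2) ?_ ?_ ?_
      · intro w hw
        rw [Finset.mem_filter] at hw
        obtain ⟨hw1, hw2⟩ := hw
        rw [hS, Finset.mem_filter] at hw1
        rw [Finset.mem_filter]
        refine ⟨Finset.mem_univ _, ?_⟩
        have := hw1.2
        rw [hψ] at this
        convert this using 3 with i
        rw [← hw2]
      · intro w hw w' hw' h
        rw [Finset.mem_filter] at hw hw'
        funext i
        have e1 := congrFun (hw.2.trans hw'.2.symm) i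
        have e2 := congrFun h i
        exact Prod.ext e1 e2
      · intro v hv
        rw [Finset.mem_filter] at hv
        refine ⟨fun i => (t i, v i), ?_, rfl⟩
        rw [Finset.mem_filter, hS, Finset.mem_filter, hW, Fintype.mem_piFinset]
        refine ⟨⟨?_, hv.2⟩, rfl⟩
        intro i
        rw [Finset.mem_product]
        exact ⟨(Fintype.mem_piFinset.mp ht) i, Finset.mem_univ _⟩
    · intro w hw
      rw [hS, Finset.mem_coe, Finset.mem_filter, hW, Fintype.mem_piFinset] at hw
      rw [Finset.mem_coe, Fintype.mem_piFinset]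
      exact fun i => (Finset.mem_product.mp (hw.1 i)).1
  have h2 : S.card = (∏ i, (U i).card) * ((Finset.univ : Finset (Fin 3 → K)).filter Z).card := by
    rw [Finset.card_eq_sum_card_fiberwise (f := ψ) (t := (Finset.univ : Finset (Fin 3 → K)).filter Z)]
    · rw [Finset.sum_const_nat (m := ∏ i, (U i).card), mul_comm]
      intro y hy
      rw [Finset.mem_filter] at hy
      have h3 : S.filter (fun w => ψ w = y) = Fintype.piFinset fun i =>
          (U i ×ˢ (Finset.univ : Finset K)).filter (fun w => (w.1 : K) * w.2 ^ a i = y i) := by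
        ext w
        rw [Finset.mem_filter, hS, Finset.mem_filter, hW, Fintype.mem_piFinset,
          Fintype.mem_piFinset]
        constructor
        · rintro ⟨⟨hw1, -⟩, hw2⟩ i
          rw [Finset.mem_filter]
          exact ⟨hw1 i, congrFun hw2 i⟩
        · intro hw
          have hw2 : ψ w = y := funext fun i => (Finset.mem_filter.mp (hw i)).2
          exact ⟨⟨fun i => (Finset.mem_filter.mp (hw i)).1, hw2 ▸ hy.2⟩, hw2⟩
      rw [h3, Fintype.card_piFinset]
      exact Finset.prod_congr rfl fun i _ => fiber_card (a i) (ha i) (U i) (hU i) (y i)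
    · intro w hw
      rw [hS, Finset.mem_coe, Finset.mem_filter] at hw
      rw [Finset.mem_coe, Finset.mem_filter]
      exact ⟨Finset.mem_univ _, hw.2⟩
  rw [← h1, h2]

end Pool.Agent.Helper15.PC
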