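import Mathlib

/-!
MP_0d40a0_lc (point counting on nonsingular plane curves): definitions.
-/

set_option autoImplicit false

namespace Pool.Agent.Helper15.PC

open MvPolynomial
open scoped LinearAlgebra.Projectivization

/-- the number of points over `K` of the projective plane curve `f = 0` -/
noncomputable def N1 {K : Type*} [Field K] (f : MvPolynomial (Fin 3) K) : ℕ :=
  Nat.card {P : ℙ K (Fin 3 → K) // eval P.rep f = 0}

/-- `f` and its partial derivatives have no common zero in the projective plane over an algebraic
closure -/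
def Nonsingular {K : Type*} [Field K] (f : MvPolynomial (Fin 3) K) : Prop :=
  ∀ v : Fin 3 → AlgebraicClosure K, v ≠ 0 → aeval v f = 0 → ∃ i, aeval v (pderiv i f) ≠ 0

/-- the polynomial `F (t_0 X_0^(a_0), t_1 X_1^(a_1), t_2 X_2^(a_2))` -/
noncomputable def pull {K : Type*} [Field K] (a : Fin 3 → ℕ) (t : Fin 3 → K)
    (F : MvPolynomial (Fin 3) K) : MvPolynomial (Fin 3) K :=
  bind₁ (fun i => C (t i) * X i ^ a i) F

end Pool.Agent.Helper15.PC
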