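import Pool.Agent.Helper15.PC.Count

/-!
MP_0d40a0_lc: hyperelliptic curves.
-/

set_option autoImplicit false

namespace Pool.Agent.Helper15.PC

open MvPolynomial
open scoped LinearAlgebra.Projectivization

variable {K : Type*} [Field K]

/-- the weighted form `y ^ 2 - g (x, z)` -/
noncomputable def hyp (g : MvPolynomial (Fin 2) K) : MvPolynomial (Fin 3) K :=
  X 2 ^ 2 - rename Fin.castSucc g

/-- the plane curve `c ^ 2 Y ^ (2 n) = g (X, Z)` -/
noncomputable def cover (n : ℕ) (c : K) (g : MvPolynomial (Fin 2) K) : MvPolynomial (Fin 3) K :=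
  C (c ^ 2) * X 2 ^ (2 * n) - rename Fin.castSucc g

/-- `g` has no repeated factor over an algebraic closure -/
def Simple (g : MvPolynomial (Fin 2) K) : Prop :=
  ∀ v : Fin 2 → AlgebraicClosure K, v ≠ 0 → aeval v g = 0 → ∃ i, aeval v (pderiv i g) ≠ 0

/-- the number of points of the hyperelliptic curve `y ^ 2 = g (x, z)`: the pairs of a point `P` of
the projective line and a square root of `g` at the chosen representative of `P` -/
noncomputable def hypPoints (g : MvPolynomial (Fin 2) K) : ℕ :=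
  Nat.card (Σ P : ℙ K (Fin 2 → K), {y : K // y ^ 2 = eval P.rep g})

theorem hyp_weighted (n : ℕ) (g : MvPolynomial (Fin 2) K) (hg : g.IsHomogeneous (2 * n)) :
    IsWeightedHomogeneous ![1, 1, n] (hyp g) (2 * n) := by
  unfold hyp
  refine Submodule.sub_mem (weightedHomogeneousSubmodule K ![1, 1, n] (2 * n)) ?_ ?_
  · have h := (isWeightedHomogeneous_X K ![1, 1, n] (2 : Fin 3)).pow 2
    simpa [mul_comm] using h
  · show IsWeightedHomogeneous ![1, 1, n] (rename Fin.castSucc g) (2 * n)
    rw [rename_eq_aeval, aeval_def, eval₂_eq']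
    refine Submodule.sum_mem (weightedHomogeneousSubmodule K ![1, 1, n] (2 * n)) ?_
    intro m hm
    have hw := hg (mem_support_iff.mp hm)
    have h2 : IsWeightedHomogeneous ![1, 1, n]
        (∏ i, ((X ∘ Fin.castSucc) i : MvPolynomial (Fin 3) K) ^ m i) (∑ i, m i * 1) := by
      refine IsWeightedHomogeneous.prod _ _ _ ?_
      intro i _
      have h3 := (isWeightedHomogeneous_X K ![1, 1, n] (Fin.castSucc i)).pow (m i)
      have h4 : (![1, 1, n] : Fin 3 → ℕ) (Fin.castSucc i) = 1 := by
        fin_cases i <;> rfl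
      rw [h4, smul_eq_mul] at h3
      exact h3
    have h3 : ∑ i, m i * 1 = 2 * n := by
      rw [← hw, Finsupp.weight_apply, Finsupp.sum_fintype _ _ (by simp)]
      refine Finset.sum_congr rfl fun i _ => ?_
      simp
    rw [h3] at h2
    have h4 := (isWeightedHomogeneous_C ![1, 1, n] (g.coeff m)).mul h2
    rw [zero_add] at h4
    exact h4

theorem pull_hyp (n : ℕ) (g : MvPolynomial (Fin 2) K) (c : K) :
    pull ![1, 1, n] ![1, 1, c] (hyp g) = cover n c g := by
  unfold pull hyp cover
  rw [map_sub, map_pow, bind₁_X_right, bind₁_rename]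
  congr 1
  · show (C c * X 2 ^ n : MvPolynomial (Fin 3) K) ^ 2 = _
    rw [mul_pow, ← pow_mul, mul_comm n 2, C_pow]
  · rw [rename_eq_aeval, ← aeval_eq_bind₁]
    congr 2
    funext i
    fin_cases i <;> simp

theorem pderiv_hyp_two (g : MvPolynomial (Fin 2) K) : pderiv 2 (hyp g) = 2 * X 2 := by
  unfold hyp
  rw [map_sub, Derivation.leibniz_pow, pderiv_X_self]
  have h : pderiv 2 (rename Fin.castSucc g) = 0 := by
    apply pderiv_eq_zero_of_notMem_vars
    intro h
    classical
    have h1 := vars_rename Fin.castSucc g h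
    rw [Finset.mem_image] at h1
    obtain ⟨i, -, hi⟩ := h1
    exact (Fin.castSucc_lt_last i).ne hi
  rw [h]
  simp

theorem pderiv_hyp (g : MvPolynomial (Fin 2) K) (j : Fin 2) :
    pderiv (Fin.castSucc j) (hyp g) = - rename Fin.castSucc (pderiv j g) := by
  unfold hyp
  rw [map_sub, Derivation.leibniz_pow, pderiv_rename (Fin.castSucc_injective 2),
    pderiv_X_of_ne (show (2 : Fin 3) ≠ Fin.castSucc j from (Fin.castSucc_lt_last j).ne')]
  simp

theorem hyp_nonsingular (n : ℕ) (h2n : ((2 * n : ℕ) : K) ≠ 0) (g : MvPolynomial (Fin 2) K)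
    (hs : Simple g) : Nonsingular (pull ![1, 1, n] 1 (hyp g)) := by
  have hn : 0 < n := by
    rcases Nat.eq_zero_or_pos n with h | h
    · subst h
      simp at h2n
    · exact h
  intro v hv hv0
  have hpt : (fun i => algebraMap K (AlgebraicClosure K) ((1 : Fin 3 → K) i) *
      v i ^ (![1, 1, n] : Fin 3 → ℕ) i) = ![v 0, v 1, v 2 ^ n] := by
    funext i
    fin_cases i <;> simp
  have hren : ∀ p : MvPolynomial (Fin 2) K, aeval (![v 0, v 1, v 2 ^ n] : Fin 3 → AlgebraicClosure K)
      (rename Fin.castSucc p) = aeval (fun j : Fin 2 => v (Fin.castSucc j)) p := by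
    intro p
    rw [aeval_rename]
    congr 2
    funext j
    fin_cases j <;> rfl
  rw [aeval_pull, hpt] at hv0
  by_cases h0 : v 2 = 0
  · have hv' : (fun j : Fin 2 => v (Fin.castSucc j)) ≠ 0 := by
      intro h
      apply hv
      funext i
      fin_cases i
      · exact congrFun h 0
      · exact congrFun h 1
      · exact h0
    have h1 : aeval (fun j : Fin 2 => v (Fin.castSucc j)) g = 0 := by
      unfold hyp at hv0
      rw [map_sub, map_pow, aeval_X, hren] at hv0
      have h3 : (![v 0, v 1, v 2 ^ n] : Fin 3 → AlgebraicClosure K) 2 = 0 := by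
        show v 2 ^ n = 0
        rw [h0, zero_pow hn.ne']
      rw [h3, zero_pow two_ne_zero, zero_sub, neg_eq_zero] at hv0
      exact hv0
    obtain ⟨j, hj⟩ := hs _ hv' h1
    refine ⟨Fin.castSucc j, ?_⟩
    rw [pderiv_pull, map_mul, aeval_pull, hpt, pderiv_hyp, map_neg, hren]
    have h4 : (![1, 1, n] : Fin 3 → ℕ) (Fin.castSucc j) = 1 := by
      fin_cases j <;> rfl
    rw [h4]
    simpa using hj
  · refine ⟨2, ?_⟩
    rw [pderiv_pull, map_mul, aeval_pull, hpt, pderiv_hyp_two]
    have h4 : (![1, 1, n] : Fin 3 → ℕ) 2 = n := rfl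
    have h5 : (![v 0, v 1, v 2 ^ n] : Fin 3 → AlgebraicClosure K) 2 = v 2 ^ n := rfl
    have h6 : (2 : AlgebraicClosure K) * (n : AlgebraicClosure K) ≠ 0 := by
      have h7 : algebraMap K (AlgebraicClosure K) ((2 * n : ℕ) : K) ≠ 0 := (map_ne_zero _).mpr h2n
      rw [map_natCast, Nat.cast_mul, Nat.cast_ofNat] at h7
      exact h7
    rw [h4, map_mul, aeval_X, h5]
    simp only [map_mul, map_pow, aeval_X, map_natCast, map_ofNat, Pi.one_apply, map_one, one_mul]
    refine mul_ne_zero (mul_ne_zero (left_ne_zero_of_mul h6) (pow_ne_zero _ h0))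
      (mul_ne_zero (right_ne_zero_of_mul h6) (pow_ne_zero _ h0))

theorem eval_smul_hom₂ {σ : Type*} [Fintype σ] {d : ℕ} {f : MvPolynomial σ K}
    (hf : f.IsHomogeneous d) (c : K) (v : σ → K) : eval (c • v) f = c ^ d * eval v f := by
  rw [eval_eq', eval_eq', Finset.mul_sum]
  refine Finset.sum_congr rfl ?_
  intro m hm
  have hw : m.degree = d := by
    by_contra hne
    exact (mem_support_iff.mp hm) (hf.coeff_eq_zero hne)
  have h1 : ∏ i, (c • v) i ^ m i = c ^ d * ∏ i, v i ^ m i := by
    simp only [Pi.smul_apply, smul_eq_mul, mul_pow]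
    rw [Finset.prod_mul_distrib, Finset.prod_pow_eq_pow_sum]
    congr 2
    rw [← hw, Finsupp.degree_eq_sum]
  rw [h1]
  ring

theorem eval_hyp (g : MvPolynomial (Fin 2) K) (w : Fin 2 → K) (y : K) :
    eval (Fin.snoc w y : Fin 3 → K) (hyp g) = y ^ 2 - eval w g := by
  unfold hyp
  have h1 : (Fin.snoc w y : Fin 3 → K) 2 = y := Fin.snoc_last _ _
  have h2 : (Fin.snoc w y : Fin 3 → K) ∘ Fin.castSucc = w := by
    funext j
    exact Fin.snoc_castSucc _ _ _
  rw [map_sub, map_pow, eval_X, eval_rename, h1, h2]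

/-- the nonzero zeros of `y ^ 2 - g (x, z)` -/
theorem card_hyp [Finite K] (n : ℕ) (g : MvPolynomial (Fin 2) K) (hg : g.IsHomogeneous (2 * n))
    (hn : 0 < n) :
    Nat.card {v : Fin 3 → K // v ≠ 0 ∧ eval v (hyp g) = 0} = (Nat.card K - 1) * hypPoints g := by
  have h1 : Nat.card Kˣ = Nat.card K - 1 := by
    have := Fintype.ofFinite K
    classical
    rw [Nat.card_eq_fintype_card, Fintype.card_units, Nat.card_eq_fintype_card]
  let e : (Σ P : ℙ K (Fin 2 → K), {y : K // y ^ 2 = eval P.rep g}) × Kˣ →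
      {v : Fin 3 → K // v ≠ 0 ∧ eval v (hyp g) = 0} := fun w =>
    ⟨(Fin.snoc ((w.2 : K) • w.1.1.rep) ((w.2 : K) ^ n * w.1.2.1) : Fin 3 → K), by
      intro h
      have h2 : (w.2 : K) • w.1.1.rep = 0 := by
        funext j
        have := congrFun h (Fin.castSucc j)
        rw [Fin.snoc_castSucc] at this
        exact this
      exact smul_ne_zero w.2.ne_zero w.1.1.rep_nonzero h2, by
      rw [eval_hyp, eval_smul_hom₂ hg, mul_pow, w.1.2.2, ← pow_mul, mul_comm n 2, sub_self]⟩
  have he : Function.Bijective e := by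
    constructor
    · rintro ⟨⟨P, y, hy⟩, u⟩ ⟨⟨P', y', hy'⟩, u'⟩ h
      have h2 : (Fin.snoc ((u : K) • P.rep) ((u : K) ^ n * y) : Fin 3 → K) =
          Fin.snoc ((u' : K) • P'.rep) ((u' : K) ^ n * y') := congrArg Subtype.val h
      have h2a : (u : K) • P.rep = (u' : K) • P'.rep := by
        funext j
        have := congrFun h2 (Fin.castSucc j)
        rw [Fin.snoc_castSucc, Fin.snoc_castSucc] at this
        exact this
      have h2b : (u : K) ^ n * y = (u' : K) ^ n * y' := by
        have := congrFun h2 (Fin.last 2)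
        rw [Fin.snoc_last, Fin.snoc_last] at this
        exact this
      have h3 : P = P' := by
        rw [← P.mk_rep, ← P'.mk_rep, Projectivization.mk_eq_mk_iff']
        refine ⟨(u : K)⁻¹ * u', ?_⟩
        rw [mul_smul, ← h2a, smul_smul, inv_mul_cancel₀ u.ne_zero, one_smul]
      subst h3
      have h4 : (u : K) = u' := smul_left_injective K P.rep_nonzero h2a
      have h5 : u = u' := Units.ext h4
      subst h5
      have h6 : y = y' := mul_left_cancel₀ (pow_ne_zero n u.ne_zero) h2b
      subst h6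
      rfl
    · rintro ⟨v, hv, hv0⟩
      have hsn : v = (Fin.snoc (fun j : Fin 2 => v (Fin.castSucc j)) (v (Fin.last 2)) :
          Fin 3 → K) := (Fin.snoc_init_self v).symm
      obtain ⟨w, hw⟩ : ∃ w : Fin 2 → K, w = fun j : Fin 2 => v (Fin.castSucc j) := ⟨_, rfl⟩
      obtain ⟨y, hy⟩ : ∃ y : K, y = v (Fin.last 2) := ⟨_, rfl⟩
      rw [← hw, ← hy] at hsn
      subst hsn
      rw [eval_hyp, sub_eq_zero] at hv0
      have hw0 : w ≠ 0 := by
        intro h
        have h3 : eval w g = 0 := by
          have h4 := eval_smul_hom₂ hg (0 : K) w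
          rw [zero_smul, zero_pow (by omega), zero_mul] at h4
          rw [h]
          exact h4
        rw [h3] at hv0
        have h5 : y = 0 := pow_eq_zero_iff two_ne_zero |>.mp hv0
        apply hv
        rw [h, h5]
        funext i
        refine Fin.lastCases ?_ (fun j => ?_) i
        · rw [Fin.snoc_last]
          rfl
        · rw [Fin.snoc_castSucc]
          rfl
      obtain ⟨c, hc⟩ := Projectivization.exists_smul_eq_mk_rep K w hw0
      have hc' : (c : K) • w = (Projectivization.mk K w hw0).rep := hc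
      refine ⟨⟨⟨Projectivization.mk K w hw0, ⟨(c : K) ^ n * y, ?_⟩⟩, c⁻¹⟩, ?_⟩
      · rw [← hc', eval_smul_hom₂ hg, mul_pow, hv0, ← pow_mul, mul_comm n 2]
      · apply Subtype.ext
        show (Fin.snoc (((c⁻¹ : Kˣ) : K) • (Projectivization.mk K w hw0).rep)
          (((c⁻¹ : Kˣ) : K) ^ n * ((c : K) ^ n * y)) : Fin 3 → K) = Fin.snoc w y
        rw [← hc', smul_smul, Units.inv_mul, one_smul, ← mul_assoc, ← mul_pow, Units.inv_mul,
          one_pow, one_mul]
  rw [← Nat.card_congr (Equiv.ofBijective e he), Nat.card_prod, h1, mul_comm]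
  rfl

theorem reps_one : Reps (K := K) 1 {1} := by
  intro y
  refine ⟨1, ⟨Finset.mem_singleton_self _, y, by simp⟩, ?_⟩
  rintro u ⟨hu, -⟩
  exact Finset.mem_singleton.mp hu

end Pool.Agent.Helper15.PC
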