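import Pool.Agent.Helper15.PC.Defs

/-!
MP_0d40a0_lc: the twists of a nonsingular pulled back curve are nonsingular and homogeneous.
-/

set_option autoImplicit false

namespace Pool.Agent.Helper15.PC

open MvPolynomial

variable {K : Type*} [Field K]

theorem aeval_pull {L : Type*} [Field L] [Algebra K L] (a : Fin 3 → ℕ) (t : Fin 3 → K)
    (F : MvPolynomial (Fin 3) K) (v : Fin 3 → L) :
    aeval v (pull a t F) = aeval (fun i => algebraMap K L (t i) * v i ^ a i) F := by
  unfold pull
  rw [aeval_bind₁]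
  congr 2
  funext i
  simp [aeval_C]

theorem eval_pull (a : Fin 3 → ℕ) (t : Fin 3 → K) (F : MvPolynomial (Fin 3) K) (v : Fin 3 → K) :
    eval v (pull a t F) = eval (fun i => t i * v i ^ a i) F := by
  have h := aeval_pull (L := K) a t F v
  simpa [aeval_eq_eval] using h

theorem pderiv_pull (a : Fin 3 → ℕ) (t : Fin 3 → K) (F : MvPolynomial (Fin 3) K) (i : Fin 3) :
    pderiv i (pull a t F) =
      pull a t (pderiv i F) * (C (t i) * ((a i : MvPolynomial (Fin 3) K) * X i ^ (a i - 1))) := by
  unfold pull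
  induction F using MvPolynomial.induction_on with
  | C c => simp
  | add p q hp hq => simp only [map_add, hp, hq, add_mul]
  | mul_X p n hp =>
    rw [map_mul, Derivation.leibniz, hp, Derivation.leibniz, map_add, bind₁_X_right]
    simp only [smul_eq_mul, map_mul, bind₁_X_right]
    by_cases hn : n = i
    · subst hn
      rw [pderiv_X_self, Derivation.leibniz, Derivation.leibniz_pow, pderiv_C, pderiv_X_self]
      simp only [smul_eq_mul, nsmul_eq_mul, map_one]
      ring
    · rw [pderiv_X_of_ne (R := K) hn, Derivation.leibniz, Derivation.leibniz_pow, pderiv_C,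
        pderiv_X_of_ne (R := K) hn]
      simp only [smul_eq_mul, nsmul_eq_mul, map_zero]
      ring

theorem pull_homogeneous (a : Fin 3 → ℕ) (t : Fin 3 → K) {d : ℕ} (F : MvPolynomial (Fin 3) K)
    (hF : IsWeightedHomogeneous a F d) : (pull a t F).IsHomogeneous d := by
  unfold pull
  rw [← aeval_eq_bind₁, aeval_def, eval₂_eq']
  refine IsHomogeneous.sum _ _ _ ?_
  intro m hm
  have hw := hF (mem_support_iff.mp hm)
  have h1 : (∏ i, (C (t i) * X i ^ a i : MvPolynomial (Fin 3) K) ^ m i).IsHomogeneous d := by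
    have h2 : (∏ i, (C (t i) * X i ^ a i : MvPolynomial (Fin 3) K) ^ m i).IsHomogeneous
        (∑ i, (0 + 1 * a i) * m i) := by
      refine IsHomogeneous.prod _ _ _ ?_
      intro i _
      exact ((isHomogeneous_C _ _).mul ((isHomogeneous_X _ _).pow _)).pow _
    have h3 : ∑ i, (0 + 1 * a i) * m i = d := by
      rw [← hw, Finsupp.weight_apply, Finsupp.sum_fintype _ _ (by simp)]
      refine Finset.sum_congr rfl fun i _ => ?_
      simp [mul_comm]
    rwa [h3] at h2
  have h4 := (isHomogeneous_C (Fin 3) (F.coeff m)).mul h1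
  rw [zero_add] at h4
  exact h4

theorem nonsingular_twist (a : Fin 3 → ℕ) (ha : ∀ i, 0 < a i) (F : MvPolynomial (Fin 3) K)
    (h : Nonsingular (pull a 1 F)) (t : Fin 3 → K) (ht : ∀ i, t i ≠ 0) :
    Nonsingular (pull a t F) := by
  intro v hv hv0
  have hr : ∀ i, ∃ r : AlgebraicClosure K, r ^ a i = algebraMap K (AlgebraicClosure K) (t i) :=
    fun i => IsAlgClosed.exists_pow_nat_eq _ (ha i)
  choose r hr using hr
  have hr0 : ∀ i, r i ≠ 0 := by
    intro i h0
    have h1 := hr i
    rw [h0, zero_pow (ha i).ne'] at h1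
    exact ht i ((map_eq_zero _).mp h1.symm)
  have hpt : (fun i => algebraMap K (AlgebraicClosure K) ((1 : Fin 3 → K) i) * (r i * v i) ^ a i) =
      fun i => algebraMap K (AlgebraicClosure K) (t i) * v i ^ a i := by
    funext i
    rw [Pi.one_apply, map_one, one_mul, mul_pow, hr]
  have hv' : (fun i => r i * v i) ≠ 0 := by
    intro h0
    apply hv
    funext i
    have := congrFun h0 i
    exact (mul_eq_zero.mp this).resolve_left (hr0 i)
  have h1 : aeval (fun i => r i * v i) (pull a 1 F) = 0 := by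
    rw [aeval_pull, hpt, ← aeval_pull]
    exact hv0
  obtain ⟨i, hi⟩ := h _ hv' h1
  refine ⟨i, ?_⟩
  rw [pderiv_pull, map_mul, aeval_pull] at hi ⊢
  rw [hpt] at hi
  have h2 := left_ne_zero_of_mul hi
  have h3 := right_ne_zero_of_mul hi
  refine mul_ne_zero h2 ?_
  simp only [map_mul, aeval_C, map_natCast, map_pow, aeval_X, Pi.one_apply, map_one,
    one_mul, mul_pow] at h3 ⊢
  refine mul_ne_zero ?_ (mul_ne_zero (left_ne_zero_of_mul h3) ?_)
  · exact (map_ne_zero _).mpr (ht i)
  · exact right_ne_zero_of_mul (right_ne_zero_of_mul h3)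

end Pool.Agent.Helper15.PC
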